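import Pool.Agent.helper70.QSD.SpecC

set_option autoImplicit false

namespace Pool.Agent.helper70.QSD

open Pool.Agent.helper53.AU
open scoped Classical IntermediateField Polynomial
open Filter (Tendsto atTop)
open FirstOrder

theorem ACC_common (Φ : KS ≃+* KS) (s : Finset KS)
    (h : ∀ c ∈ s, ∃ e : ℕ, 1 ≤ e ∧ (⇑Φ)^[e] c = c) :
    ∃ e : ℕ, 1 ≤ e ∧ ∀ c ∈ s, (⇑Φ)^[e] c = c := by
  induction s using Finset.induction_on with
  | empty => exact ⟨1, le_rfl, fun c hc => absurd hc (Finset.notMem_empty c)⟩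
  | insert a s ha ih =>
    obtain ⟨e, he, hs⟩ := ih fun c hc => h c (Finset.mem_insert_of_mem hc)
    obtain ⟨e', he', hs'⟩ := h a (Finset.mem_insert_self a s)
    refine ⟨e * e', Nat.mul_pos he he', fun c hc => ?_⟩
    rcases Finset.mem_insert.1 hc with rfl | hc
    · rw [mul_comm, Function.iterate_mul]
      exact Function.iterate_fixed hs' e
    · rw [Function.iterate_mul]
      exact Function.iterate_fixed (hs c hc) e'

theorem ACC_pow (Φ : KS ≃+* KS) (e : ℕ) : ∃ Ψ : KS →+* KS, ∀ x, Ψ x = (⇑Φ)^[e] x := by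
  induction e with
  | zero => exact ⟨RingHom.id _, fun x => rfl⟩
  | succ e ih =>
    obtain ⟨Ψ, h⟩ := ih
    refine ⟨(Φ : KS →+* KS).comp Ψ, fun x => ?_⟩
    rw [Function.iterate_succ_apply', ← h x]
    rfl

theorem ACC : ACC_stmt := by
  intro Φ B hc horb hst
  have hmem : ∀ x : KS, x ∈ (algebraicClosure B KS).toSubfield ↔ IsAlgebraic B x := fun x =>
    mem_algebraicClosure_iff
  refine ⟨(algebraicClosure B KS).toSubfield, ⟨?_, ?_, ?_, ?_⟩, ?_, fun x hx => (hmem x).1 hx⟩
  · have h1 : {x : KS | IsAlgebraic B x}.Countable := Algebraic.countable B KS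
    have h2 : ((algebraicClosure B KS).toSubfield : Set KS) = {x : KS | IsAlgebraic B x} :=
      Set.ext hmem
    rw [← h2] at h1
    exact h1.to_subtype
  · intro x hx
    rw [hmem]
    obtain ⟨p, hp0, hp⟩ := hx
    have hx' : IsAlgebraic (algebraicClosure B KS) x := ⟨p, hp0, hp⟩
    exact hx'.restrictScalars B
  · intro x hx
    obtain ⟨p, hp0, hp⟩ := (hmem x).1 hx
    obtain ⟨e, he, hcf⟩ := ACC_common Φ ((Finset.range (p.natDegree + 1)).image
      (fun i => (p.coeff i : KS))) (by
        intro c hc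
        obtain ⟨i, -, rfl⟩ := Finset.mem_image.1 hc
        exact horb _ (p.coeff i).2)
    obtain ⟨Ψ, hΨ⟩ := ACC_pow Φ e
    have hroot : ∀ y : KS, Polynomial.aeval y p = 0 → Polynomial.aeval (Ψ y) p = 0 := by
      intro y hy
      rw [Polynomial.aeval_eq_sum_range] at hy ⊢
      have h1 := congrArg Ψ hy
      rw [map_zero, map_sum] at h1
      rw [← h1]
      refine Finset.sum_congr rfl fun i hi => ?_
      have h2 : Ψ (p.coeff i : KS) = (p.coeff i : KS) := by
        rw [hΨ]
        exact hcf _ (Finset.mem_image.2 ⟨i, hi, rfl⟩)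
      have h3 : ∀ z : KS, p.coeff i • z = (p.coeff i : KS) * z := fun z => rfl
      rw [h3, h3, map_mul, h2, map_pow]
    have hfin : {y : KS | Polynomial.aeval y p = 0}.Finite := by
      have h1 := (p.rootSet_finite KS)
      refine h1.subset fun y hy => ?_
      rw [Polynomial.mem_rootSet]
      exact ⟨hp0, hy⟩
    have hall : ∀ k : ℕ, Polynomial.aeval ((⇑Ψ)^[k] x) p = 0 := by
      intro k
      induction k with
      | zero => exact hp
      | succ k ih => rw [Function.iterate_succ_apply']; exact hroot _ ih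
    have hninj : ¬ Function.Injective (fun k : ℕ => (⇑Ψ)^[k] x) := by
      intro hinj
      have h1 : (Set.range (fun k : ℕ => (⇑Ψ)^[k] x)).Finite :=
        hfin.subset (by rintro _ ⟨k, rfl⟩; exact hall k)
      exact Set.infinite_range_of_injective hinj h1
    have key : ∃ k : ℕ, 1 ≤ k ∧ (⇑Ψ)^[k] x = x := by
      rw [Function.Injective] at hninj
      push Not at hninj
      obtain ⟨i, j, hij, hne⟩ := hninj
      wlog hlt : i < j generalizing i j with H
      · exact H j i hij.symm hne.symm (lt_of_le_of_ne (not_lt.1 hlt) hne.symm)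
      refine ⟨j - i, by omega, ?_⟩
      have h1 : Function.Injective ((⇑Ψ)^[i]) := Function.Injective.iterate Ψ.injective i
      apply h1
      rw [← Function.iterate_add_apply, Nat.add_sub_cancel' hlt.le]
      exact hij.symm
    obtain ⟨k, hk, hkx⟩ := key
    refine ⟨e * k, Nat.mul_pos he hk, ?_⟩
    rw [Function.iterate_mul]
    have h2 : (⇑Φ)^[e] = ⇑Ψ := funext fun x => (hΨ x).symm
    rw [h2]
    exact hkx
  · intro x hx
    rw [hmem]
    obtain ⟨p, hp0, hp⟩ := (hmem x).1 hx
    let ΦB : B →+* B := ((Φ : KS →+* KS).comp B.subtype).codRestrict B (fun x => hst x.1 x.2)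
    refine ⟨p.map ΦB, (Polynomial.map_ne_zero_iff ΦB.injective).2 hp0, ?_⟩
    rw [Polynomial.aeval_def, Polynomial.eval₂_map]
    have h1 : (algebraMap B KS).comp ΦB = (Φ : KS →+* KS).comp (algebraMap B KS) := by
      ext y; rfl
    rw [h1]
    have h2 := Polynomial.hom_eval₂ p (algebraMap B KS) (Φ : KS →+* KS) x
    have h3 : Polynomial.eval₂ (algebraMap B KS) x p = 0 := hp
    rw [h3, map_zero] at h2
    exact h2.symm
  · intro x hx
    rw [hmem]
    exact isAlgebraic_algebraMap (⟨x, hx⟩ : B)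

end Pool.Agent.helper70.QSD
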