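import Pool.Agent.helper70.QSD.SpecC

set_option autoImplicit false

namespace Pool.Agent.helper70.QSD

open Pool.Agent.helper53.AU
open scoped Classical IntermediateField Polynomial
open Filter (Tendsto atTop)
open FirstOrder

theorem EXT_surj (x : KS) : ∃ t : ℕ → kk, pr t = x := by
  induction x using Filter.Germ.inductionOn with
  | h t => exact ⟨t, rfl⟩

theorem EXT_eq {s t : ℕ → kk} (h : ∀ᶠ j in (UU : Filter ℕ), s j = t j) : pr s = pr t :=
  Filter.Germ.coe_eq.2 h

theorem EXT_alg {A : Subfield KS} {y x : KS} (h : IsAlgebraic (A⟮y⟯).toSubfield x) :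
    IsAlgebraic A⟮y⟯ x := by
  obtain ⟨p, hp0, hp⟩ := h
  exact ⟨p, hp0, hp⟩

theorem EXT (hCLB : CLB_stmt) (hACC : ACC_stmt) (hSAT : SAT_stmt) (hFSX : FSX_stmt) : EXT_stmt := by
  intro N N' Φ Φ' hN hN' hNt hNt' A f h y hy
  by_cases hyA : y ∈ A
  · exact ⟨A, f, le_rfl, h, hyA, fun x hx => rfl⟩
  obtain ⟨hB1, hB2, hB3, hB4, hB5⟩ := hCLB.1 Φ A h.good y hy
  obtain ⟨A₁, hG, hBA, halg⟩ := hACC Φ _ hB1 hB2 hB3
  choose rep hrep using EXT_surj
  set cst : ℕ → KS → kk := fun j x => if hx : x ∈ A then rep (f ⟨x, hx⟩) j else 0 with hcst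
  have hctb : (A₁ : Set KS).Countable := by
    have := hG.ctb
    exact Set.to_countable (A₁ : Set KS)
  obtain ⟨χ, hχ⟩ := hSAT (fun E j χ => CND Φ A E (cst j) (2 ^ N' j) χ)
    (by
      rintro E E' j χ hE ⟨h1, h2, h3, h4⟩
      exact ⟨fun x hx => h1 x (hE hx), fun x hx x' hx' hs => h2 x (hE hx) x' (hE hx') (hE hs),
        fun x hx x' hx' hs => h3 x (hE hx) x' (hE hx') (hE hs),
        fun x hx hx' => h4 x (hE hx) (hE hx')⟩)
    (A₁ : Set KS) hctb
    (by
      intro E hE
      exact hFSX N' Φ Φ' hN' hNt' A f h y hyA hy rep hrep E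
        (fun x hx => ⟨EXT_alg (halg x (hE hx)), hG.orb x (hE hx)⟩))
  have hAA : A ≤ A₁ := hB4.trans hBA
  have hcon : ∀ (x : KS) (hx : x ∈ A), pr (fun j => χ j x) = f ⟨x, hx⟩ := by
    intro x hx
    have h1 := hχ {x} (by
      intro z hz
      rw [Finset.coe_singleton, Set.mem_singleton_iff] at hz
      rw [hz]; exact hAA hx)
    rw [← hrep (f ⟨x, hx⟩)]
    refine EXT_eq (h1.mono fun j hj => ?_)
    have h2 := hj.1 x (Finset.mem_singleton_self x) hx
    rw [h2, hcst]
    simp only [dif_pos hx]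
  have hadd : ∀ x ∈ A₁, ∀ x' ∈ A₁, pr (fun j => χ j (x + x')) =
      pr (fun j => χ j x) + pr (fun j => χ j x') := by
    intro x hx x' hx'
    have h1 := hχ {x, x', x + x'} (by
      intro z hz
      rw [Finset.mem_coe, Finset.mem_insert, Finset.mem_insert, Finset.mem_singleton] at hz
      rcases hz with rfl | rfl | rfl
      · exact hx
      · exact hx'
      · exact A₁.add_mem hx hx')
    rw [← map_add]
    refine EXT_eq (h1.mono fun j hj => ?_)
    exact hj.2.1 x (by simp) x' (by simp) (by simp)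
  have hmul : ∀ x ∈ A₁, ∀ x' ∈ A₁, pr (fun j => χ j (x * x')) =
      pr (fun j => χ j x) * pr (fun j => χ j x') := by
    intro x hx x' hx'
    have h1 := hχ {x, x', x * x'} (by
      intro z hz
      rw [Finset.mem_coe, Finset.mem_insert, Finset.mem_insert, Finset.mem_singleton] at hz
      rcases hz with rfl | rfl | rfl
      · exact hx
      · exact hx'
      · exact A₁.mul_mem hx hx')
    rw [← map_mul]
    refine EXT_eq (h1.mono fun j hj => ?_)
    exact hj.2.2.1 x (by simp) x' (by simp) (by simp)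
  let f₁ : A₁ →+* KS :=
    { toFun := fun x => pr (fun j => χ j x.1)
      map_one' := by
        have := hcon 1 A.one_mem
        have h1 : f ⟨1, A.one_mem⟩ = 1 := map_one f
        rw [h1] at this
        exact this
      map_zero' := by
        have := hcon 0 A.zero_mem
        have h1 : f ⟨0, A.zero_mem⟩ = 0 := map_zero f
        rw [h1] at this
        exact this
      map_add' := fun x x' => hadd x.1 x.2 x'.1 x'.2
      map_mul' := fun x x' => hmul x.1 x.2 x'.1 x'.2 }
  refine ⟨A₁, f₁, hAA, ⟨hG, ?_⟩, hBA hB5, fun x hx => hcon x hx⟩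
  intro x hx hx'
  have h1 := hχ {x, Φ x} (by
    intro z hz
    rw [Finset.mem_coe, Finset.mem_insert, Finset.mem_singleton] at hz
    rcases hz with rfl | rfl
    · exact hx
    · exact hx')
  have h2 : Φ' (pr (fun j => χ j (Φ x))) = pr (fun j => χ j (Φ x) ^ 2 ^ N' j) := hN' _
  have h3 : pr (fun j => χ j (Φ x) ^ 2 ^ N' j) = pr (fun j => χ j x) := by
    refine EXT_eq (h1.mono fun j hj => ?_)
    exact hj.2.2.2 x (by simp) (by simp)
  exact h2.trans h3

end Pool.Agent.helper70.QSD
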