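import Pool.Agent.helper70.QSD.SpecD

set_option autoImplicit false

namespace Pool.Agent.helper70.QSD

open Pool.Agent.helper53.AU
open scoped Classical IntermediateField Polynomial
open Filter (Tendsto atTop)
open FirstOrder

theorem LOS_surj (x : KS) : ∃ t : ℕ → kk, pr t = x := by
  induction x using Filter.Germ.inductionOn with
  | h t => exact ⟨t, rfl⟩

theorem LOS_eq {s t : ℕ → kk} : pr s = pr t ↔ ∀ᶠ j in (UU : Filter ℕ), s j = t j :=
  Filter.Germ.coe_eq

theorem LOS_tv {α : Type} (t : Language.ring.Term α) (v : α → ℕ → kk) :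
    tv t (fun i => pr (v i)) = pr (fun j => tv t (fun i => v i j)) := by
  induction t with
  | var i => rfl
  | func f ts ih =>
    cases f with
    | add =>
      have h1 : tv (Language.Term.func (L := Language.ring) ringFunc.add ts) (fun i => pr (v i)) =
        tv (ts 0) (fun i => pr (v i)) + tv (ts 1) (fun i => pr (v i)) := rfl
      rw [h1, ih 0, ih 1, ← map_add]
      rfl
    | mul =>
      have h1 : tv (Language.Term.func (L := Language.ring) ringFunc.mul ts) (fun i => pr (v i)) =
        tv (ts 0) (fun i => pr (v i)) * tv (ts 1) (fun i => pr (v i)) := rfl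
      rw [h1, ih 0, ih 1, ← map_mul]
      rfl
    | neg =>
      have h1 : tv (Language.Term.func (L := Language.ring) ringFunc.neg ts) (fun i => pr (v i)) =
        - tv (ts 0) (fun i => pr (v i)) := rfl
      rw [h1, ih 0, ← map_neg]
      rfl
    | zero =>
      have h1 : tv (Language.Term.func (L := Language.ring) ringFunc.zero ts) (fun i => pr (v i)) =
        0 := rfl
      rw [h1, ← map_zero pr]
      rfl
    | one =>
      have h1 : tv (Language.Term.func (L := Language.ring) ringFunc.one ts) (fun i => pr (v i)) =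
        1 := rfl
      rw [h1, ← map_one pr]
      rfl

theorem LOS_snoc {n : ℕ} (xs : Fin n → ℕ → kk) (t : ℕ → kk) :
    (Fin.snoc (fun i => pr (xs i)) (pr t) : Fin (n + 1) → KS) =
      fun i => pr ((Fin.snoc xs t : Fin (n + 1) → ℕ → kk) i) := by
  funext i
  refine Fin.lastCases ?_ (fun i => ?_) i
  · rw [Fin.snoc_last, Fin.snoc_last]
  · rw [Fin.snoc_castSucc, Fin.snoc_castSucc]

theorem LOS_snoc' {n : ℕ} (xs : Fin n → ℕ → kk) (t : ℕ → kk) (j : ℕ) :
    (Fin.snoc (fun i => xs i j) (t j) : Fin (n + 1) → kk) =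
      fun i => (Fin.snoc xs t : Fin (n + 1) → ℕ → kk) i j := by
  funext i
  refine Fin.lastCases ?_ (fun i => ?_) i
  · rw [Fin.snoc_last, Fin.snoc_last]
  · rw [Fin.snoc_castSucc, Fin.snoc_castSucc]

theorem LOS_falsum {Ω : Type} [Field Ω] (S : Set Ω) {α : Type} {n : ℕ} (v : α → Ω)
    (xs : Fin n → Ω) : RZ S (Language.BoundedFormula.falsum) v xs ↔ False := by
  simp only [RZ]

theorem LOS_equal {Ω : Type} [Field Ω] (S : Set Ω) {α : Type} {n : ℕ}
    (t₁ t₂ : Language.ring.Term (α ⊕ Fin n)) (v : α → Ω) (xs : Fin n → Ω) :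
    RZ S (Language.BoundedFormula.equal t₁ t₂) v xs ↔
      tv t₁ (Sum.elim v xs) = tv t₂ (Sum.elim v xs) := by
  simp only [RZ]

theorem LOS_rel {Ω : Type} [Field Ω] (S : Set Ω) {α : Type} {n l : ℕ}
    (R : Language.ring.Relations l) (ts : Fin l → Language.ring.Term (α ⊕ Fin n)) (v : α → Ω)
    (xs : Fin n → Ω) : RZ S (Language.BoundedFormula.rel R ts) v xs ↔ False := by
  simp only [RZ]

theorem LOS_imp {Ω : Type} [Field Ω] (S : Set Ω) {α : Type} {n : ℕ}
    (φ ψ : Language.ring.BoundedFormula α n) (v : α → Ω) (xs : Fin n → Ω) :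
    RZ S (Language.BoundedFormula.imp φ ψ) v xs ↔ (RZ S φ v xs → RZ S ψ v xs) := by
  simp only [RZ]

theorem LOS_all {Ω : Type} [Field Ω] (S : Set Ω) {α : Type} {n : ℕ}
    (φ : Language.ring.BoundedFormula α (n + 1)) (v : α → Ω) (xs : Fin n → Ω) :
    RZ S (Language.BoundedFormula.all φ) v xs ↔ ∀ x ∈ S, RZ S φ v (Fin.snoc xs x) := by
  simp only [RZ]

theorem LOS : LOS_stmt := by
  intro N Φ hN α n φ
  induction φ with
  | falsum =>
    intro v xs
    simp only [LOS_falsum]
    refine ⟨fun h => h.elim, fun h => ?_⟩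
    obtain ⟨j, hj⟩ := h.exists
    exact hj
  | equal t₁ t₂ =>
    intro v xs
    have e1 : (Sum.elim (fun i => pr (v i)) (fun i => pr (xs i)) : _ → KS) =
        fun i => pr (Sum.elim v xs i) := by
      funext i
      rcases i with i | i <;> rfl
    have e2 : ∀ j, (Sum.elim (fun i => v i j) (fun i => xs i j) : _ → kk) =
        fun i => Sum.elim v xs i j := by
      intro j
      funext i
      rcases i with i | i <;> rfl
    simp only [LOS_equal]
    rw [e1, LOS_tv, LOS_tv, LOS_eq]
    simp only [e2]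
  | rel R ts =>
    intro v xs
    simp only [LOS_rel]
    refine ⟨fun h => h.elim, fun h => ?_⟩
    obtain ⟨j, hj⟩ := h.exists
    exact hj
  | imp φ ψ ih1 ih2 =>
    intro v xs
    simp only [LOS_imp]
    rw [ih1, ih2, Ultrafilter.eventually_imp]
  | all φ ih =>
    intro v xs
    simp only [LOS_all]
    constructor
    · intro h
      by_contra hcon
      rw [← Ultrafilter.eventually_not] at hcon
      set t : ℕ → kk := fun j => if hx : ∃ x : kk, x ^ 2 ^ N j = x ∧
        ¬ RZ {x : kk | x ^ 2 ^ N j = x} φ (fun i => v i j) (Fin.snoc (fun i => xs i j) x)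
        then hx.choose else 0 with ht
      have h1 : ∀ᶠ j in (UU : Filter ℕ), t j ^ 2 ^ N j = t j ∧
          ¬ RZ {x : kk | x ^ 2 ^ N j = x} φ (fun i => v i j) (Fin.snoc (fun i => xs i j) (t j)) := by
        refine hcon.mono fun j hj => ?_
        have hx : ∃ x : kk, x ^ 2 ^ N j = x ∧
          ¬ RZ {x : kk | x ^ 2 ^ N j = x} φ (fun i => v i j) (Fin.snoc (fun i => xs i j) x) := by
          by_contra hc
          push Not at hc
          exact hj fun x hx => hc x hx
        have h2 : t j = hx.choose := by rw [ht]; exact dif_pos hx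
        rw [h2]
        exact hx.choose_spec
      have h2 : Φ (pr t) = pr t := by
        rw [hN t]
        exact LOS_eq.2 (h1.mono fun j hj => hj.1)
      have h3 := h (pr t) h2
      rw [LOS_snoc, ih v (Fin.snoc xs t)] at h3
      obtain ⟨j, hj, hj'⟩ := (h3.and h1).exists
      rw [LOS_snoc'] at hj'
      exact hj'.2 hj
    · intro h x hx
      obtain ⟨t, rfl⟩ := LOS_surj x
      have h1 : ∀ᶠ j in (UU : Filter ℕ), t j ^ 2 ^ N j = t j := by
        have h2 : Φ (pr t) = pr t := hx
        rw [hN t] at h2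
        exact LOS_eq.1 h2
      rw [LOS_snoc, ih v (Fin.snoc xs t)]
      refine (h.and h1).mono fun j hj => ?_
      have := hj.1 (t j) hj.2
      rw [LOS_snoc'] at this
      exact this

end Pool.Agent.helper70.QSD
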