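import Pool.Agent.helper70.QSD.SpecC

set_option autoImplicit false

namespace Pool.Agent.helper70.QSD

open Pool.Agent.helper53.AU
open scoped Classical IntermediateField Polynomial
open FirstOrder

theorem INV_acl {A : Subfield KS} (hK : IsAlgClosed KS)
    (hA : ∀ x : KS, IsAlgebraic A x → x ∈ A) : IsAlgClosed A := by
  refine IsAlgClosed.of_exists_root _ fun p hm hp => ?_
  have hdeg : (p.map (algebraMap A KS)).degree ≠ 0 := by
    rw [Polynomial.degree_map]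
    exact (Polynomial.degree_pos_of_irreducible hp).ne'
  obtain ⟨x, hx⟩ := IsAlgClosed.exists_root _ hdeg
  have hx' : Polynomial.aeval x p = 0 := by
    rw [Polynomial.aeval_def, Polynomial.eval₂_eq_eval_map]
    exact hx
  have hxA : x ∈ A := hA x ⟨p, hp.ne_zero, hx'⟩
  refine ⟨⟨x, hxA⟩, ?_⟩
  have h2 : (algebraMap A KS) (p.eval ⟨x, hxA⟩) = 0 := by
    rw [← Polynomial.eval₂_at_apply]
    exact hx'
  exact (map_eq_zero_iff _ (algebraMap A KS).injective).1 h2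

theorem INV_iter {Φ Φ' : KS ≃+* KS} {A : Subfield KS} {f : A →+* KS} (h : Pos Φ Φ' A f) :
    ∀ (k : ℕ) (x : KS) (hx : x ∈ A), ∃ hk : (⇑Φ)^[k] x ∈ A,
      (⇑Φ')^[k] (f ⟨(⇑Φ)^[k] x, hk⟩) = f ⟨x, hx⟩ := by
  intro k
  induction k with
  | zero => intro x hx; exact ⟨hx, rfl⟩
  | succ k ih =>
    intro x hx
    obtain ⟨hk, e⟩ := ih x hx
    have h1 : Φ ((⇑Φ)^[k] x) ∈ A := h.good.stb _ hk
    have h2 : (⇑Φ)^[k + 1] x = Φ ((⇑Φ)^[k] x) := Function.iterate_succ_apply' _ _ _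
    refine ⟨by rw [h2]; exact h1, ?_⟩
    have h3 : (⟨(⇑Φ)^[k + 1] x, by rw [h2]; exact h1⟩ : A) = ⟨Φ ((⇑Φ)^[k] x), h1⟩ :=
      Subtype.ext h2
    rw [Function.iterate_succ_apply]
    have h4 := h.cmp _ hk h1
    have h5 : Φ' (f ⟨(⇑Φ)^[k + 1] x, by rw [h2]; exact h1⟩) = f ⟨(⇑Φ)^[k] x, hk⟩ := by
      rw [h3]; exact h4
    rw [h5]
    exact e

theorem INV_pred {Φ Φ' : KS ≃+* KS} {A : Subfield KS} {f : A →+* KS} (h : Pos Φ Φ' A f)
    (x : A) : ∃ y : A, Φ y = x ∧ Φ' (f x) = f y := by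
  obtain ⟨e, he, hx⟩ := h.good.orb x.1 x.2
  obtain ⟨hk, -⟩ := INV_iter h (e - 1) x.1 x.2
  have h1 : Φ ((⇑Φ)^[e - 1] x.1) = x.1 := by
    rw [← Function.iterate_succ_apply' (⇑Φ) (e - 1) x.1, Nat.succ_eq_add_one, Nat.sub_add_cancel he, hx]
  refine ⟨⟨_, hk⟩, h1, ?_⟩
  have h2 : Φ ((⇑Φ)^[e - 1] x.1) ∈ A := by rw [h1]; exact x.2
  have h3 : x = (⟨Φ ((⇑Φ)^[e - 1] x.1), h2⟩ : A) := Subtype.ext h1.symm
  have h4 := h.cmp _ hk h2
  rw [← h3] at h4
  exact h4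

theorem INV (hACL : ACL_stmt) : INV_stmt := by
  intro Φ Φ' A f h
  obtain ⟨hK, -⟩ := hACL
  have hAc : IsAlgClosed A := INV_acl hK h.good.acl
  set e : A ≃+* f.fieldRange := RingEquiv.ofBijective f.rangeRestrictField
    ⟨f.rangeRestrictField.injective, f.rangeRestrictField_bijective.surjective⟩ with he
  have he1 : ∀ x : A, ((e x : f.fieldRange) : KS) = f x := fun x => rfl
  have hAc' : IsAlgClosed f.fieldRange := IsAlgClosed.of_ringEquiv A f.fieldRange e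
  have hmem : ∀ x : A, f x ∈ f.fieldRange := fun x => ⟨x, rfl⟩
  have hg : ∀ x : A, (A.subtype.comp (e.symm : f.fieldRange →+* A)) ⟨f x, hmem x⟩ = x := by
    intro x
    have h1 : (⟨f x, hmem x⟩ : f.fieldRange) = e x := Subtype.ext (he1 x).symm
    rw [h1]
    simp
  have hx' : ∀ x' ∈ f.fieldRange, ∃ x : A, f x = x' := fun x' hx' => hx'
  refine ⟨f.fieldRange, A.subtype.comp (e.symm : f.fieldRange →+* A), ⟨⟨?_, ?_, ?_, ?_⟩, ?_⟩, ?_, hx'⟩
  · have := h.good.ctb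
    exact e.surjective.countable
  · intro x hx
    have hint : IsIntegral f.fieldRange x := hx.isIntegral
    have hd := IsAlgClosed.degree_eq_one_of_irreducible f.fieldRange (minpoly.irreducible hint)
    obtain ⟨y, hy⟩ := minpoly.mem_range_of_degree_eq_one f.fieldRange x hd
    rw [← hy]
    exact y.2
  · intro x' hx'
    obtain ⟨x, rfl⟩ := hx'
    obtain ⟨k, hk, hkx⟩ := h.good.orb x.1 x.2
    obtain ⟨hk', e'⟩ := INV_iter h k x.1 x.2
    refine ⟨k, hk, ?_⟩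
    have h1 : (⟨(⇑Φ)^[k] x.1, hk'⟩ : A) = x := Subtype.ext hkx
    rw [h1] at e'
    exact e'
  · intro x' hx'
    obtain ⟨x, rfl⟩ := hx'
    obtain ⟨y, -, hy⟩ := INV_pred h x
    rw [hy]
    exact hmem y
  · intro x' hx' hx''
    obtain ⟨x, rfl⟩ := hx'
    obtain ⟨y, hy1, hy⟩ := INV_pred h x
    have h1 : (⟨Φ' (f x), hx''⟩ : f.fieldRange) = ⟨f y, hmem y⟩ := Subtype.ext hy
    rw [h1, hg y, hg x]
    exact hy1
  · intro x
    exact ⟨hmem x, hg x⟩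

end Pool.Agent.helper70.QSD
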